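import Pool.Agent.H.MP_72bf7f_co.D

set_option autoImplicit false

namespace Pool.Agent.Results.MP_72bf7f_co.Zero

open Filter Topology Pool.Agent.H.MP_72bf7f_co

/-- `p_n → 0`, exponentially fast. -/
theorem result :
    Tendsto prob atTop (𝓝 0) ∧
      ∀ᶠ n : ℕ in atTop, (1 / 2 : ℝ) ^ n ≤ prob n ∧ prob n ≤ (99 / 100) ^ n := by
  have h : ∀ᶠ n : ℕ in atTop, (1 / 2 : ℝ) ^ n ≤ prob n ∧ prob n ≤ (99 / 100) ^ n := by
    filter_upwards [upper, eventually_ge_atTop 1] with n h1 h2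
    obtain ⟨k, rfl⟩ := Nat.exists_eq_add_of_le' h2
    exact ⟨lower k, h1⟩
  refine ⟨?_, h⟩
  refine tendsto_of_tendsto_of_tendsto_of_le_of_le'
    (tendsto_pow_atTop_nhds_zero_of_lt_one (r := (1 / 2 : ℝ)) (by norm_num) (by norm_num))
    (tendsto_pow_atTop_nhds_zero_of_lt_one (r := (99 / 100 : ℝ)) (by norm_num) (by norm_num))
    (h.mono fun _ h => h.1) (h.mono fun _ h => h.2)

end Pool.Agent.Results.MP_72bf7f_co.Zero
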